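import Pool.Agent.Lib.MP_a349b4_lc.LG.Main

/-!
Space/time tradeoff for `k`-reachability with exponent `1 / ⌊log₂ k⌋`.
-/

set_option autoImplicit false

namespace Pool.Agent.Results.MP_a349b4_lc.LogExponent

open Pool.Agent.Lib.MP_a349b4_lc.LG

theorem result (k c : ℕ) : ∃ (P : List Instr) (C : ℕ),
    ∀ (n X w : ℕ) (E : Finset (Fin n × Fin n)), E.card ≤ c * n → 1 ≤ X → X ^ 2 ≤ n →
      C * n ^ 2 ≤ 2 ^ w →
      ∃ D : List ℕ, Answers P w k E D (C * X ^ Nat.log 2 k * (Nat.log 2 n + 1)) ∧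
        D.length * X ≤ C * n ^ 2 :=
  main k c

end Pool.Agent.Results.MP_a349b4_lc.LogExponent
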