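import Pool.Agent.Lib.MP_a349b4_lc.TK.Main

/-!
Space/time tradeoff for `3`-reachability over the whole range: with `N = n + m`, space `O(S)` and
time `O(T log n)` whenever `S ^ 2 * T ^ 3 ≥ N ^ 4`, or `S * T ^ 2 ≥ N ^ 2` and `S ^ 4 * T ≥ N ^ 6`.
-/

set_option autoImplicit false

namespace Pool.Agent.Results.MP_a349b4_lc.ThreeSteps

open Pool.Agent.Lib.MP_a349b4_lc.LG

theorem result : ∃ (P : List Instr) (C : ℕ),
    ∀ (n S T w : ℕ) (E : Finset (Fin n × Fin n)), 1 ≤ T → n + E.card ≤ S →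
      ((n + E.card) ^ 4 ≤ S ^ 2 * T ^ 3 ∨
        ((n + E.card) ^ 2 ≤ S * T ^ 2 ∧ (n + E.card) ^ 6 ≤ S ^ 4 * T)) →
      C * S ≤ 2 ^ w →
      ∃ D : List ℕ, Answers P w 3 E D (C * T * (Nat.log 2 n + 1)) ∧ D.length ≤ C * S :=
  Pool.Agent.Lib.MP_a349b4_lc.TK.main

end Pool.Agent.Results.MP_a349b4_lc.ThreeSteps
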