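import Pool.Agent.Lib.MP_a349b4_lc.Main

/-!
Space/time tradeoff for `k`-reachability with exponent `k / ⌊k ^ 2 / 4⌋` for small query time.
-/

set_option autoImplicit false

namespace Pool.Agent.Results.MP_a349b4_lc.Tradeoff

open Pool.Agent.Lib.MP_a349b4_lc

theorem result : ∃ P : List Instr, ∀ k c : ℕ, 2 ≤ k → ∃ C : ℕ,
    ∀ (n T w : ℕ) (E : Finset (Fin n × Fin n)), E.card ≤ c * n → C ≤ T →
      T ^ (k * (k + 2)) ≤ n ^ (k ^ 2 / 4) → C * n ^ 2 ≤ 2 ^ w →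
      ∃ D : List ℕ, Answers P w k E D T ∧
        D.length ^ (k ^ 2 / 4) * T ^ k ≤ C * n ^ (2 * (k ^ 2 / 4)) * Nat.log 2 T ^ k := by
  refine ⟨prog, fun k c hk => ?_⟩
  have hk0 : 0 < k := by omega
  obtain ⟨C0, hC0, core'⟩ := core k c hk0
  obtain ⟨κ, hκ⟩ : ∃ κ, κ = k ^ 2 / 4 := ⟨_, rfl⟩
  rw [← hκ] at core' ⊢
  have hκ1 : 1 ≤ κ := by
    rw [hκ, Nat.le_div_iff_mul_le (by norm_num)]
    nlinarith
  refine ⟨C0 + C0 ^ κ * (C0 * (κ + 3)) ^ k * 2 ^ κ, ?_⟩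
  intro n T w E hE hT hn hw
  have hT0 : C0 ≤ T := le_trans (Nat.le_add_right _ _) hT
  have ex : ∃ L, T < C0 * (((L + 1) * κ / k + 1) * 2 ^ ((L + 1) * κ / k)) := by
    refine ⟨T * k, ?_⟩
    have h1 : T ≤ (T * k + 1) * κ / k := by
      rw [Nat.le_div_iff_mul_le hk0]
      exact (Nat.le_succ _).trans (Nat.le_mul_of_pos_right _ hκ1)
    have h2 : 1 ≤ 2 ^ ((T * k + 1) * κ / k) := Nat.one_le_two_pow
    calc T < (T * k + 1) * κ / k + 1 := by omega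
      _ ≤ ((T * k + 1) * κ / k + 1) * 2 ^ ((T * k + 1) * κ / k) := Nat.le_mul_of_pos_right _ h2
      _ ≤ _ := Nat.le_mul_of_pos_left _ (by omega)
  obtain ⟨L, hL1, hL2⟩ : ∃ L, T < C0 * (((L + 1) * κ / k + 1) * 2 ^ ((L + 1) * κ / k)) ∧
      C0 * ((L * κ / k + 1) * 2 ^ (L * κ / k)) ≤ T := by
    refine ⟨Nat.find ex, Nat.find_spec ex, ?_⟩
    rcases Nat.eq_zero_or_pos (Nat.find ex) with h0 | h0
    · rw [h0]
      simpa using hT0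
    · have := Nat.find_min ex (m := Nat.find ex - 1) (by omega)
      rw [Nat.sub_add_cancel h0] at this
      omega
  obtain ⟨t, ht⟩ : ∃ t, t = L * κ / k := ⟨_, rfl⟩
  obtain ⟨t', ht'⟩ : ∃ t', t' = (L + 1) * κ / k := ⟨_, rfl⟩
  rw [← ht'] at hL1
  have a1 : L * κ < (t + 1) * k := by
    rw [ht]
    exact (Nat.div_lt_iff_lt_mul hk0).1 (Nat.lt_succ_self _)
  have a2 : t' * k ≤ (L + 1) * κ := ht' ▸ Nat.div_mul_le_self _ _
  have a3 : 2 ^ (t + 1) ≤ T := by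
    rw [← ht] at hL2
    refine le_trans ?_ hL2
    rw [pow_succ, mul_comm]
    exact Nat.mul_le_mul hC0 (Nat.le_mul_of_pos_left _ (Nat.succ_pos t))
  have a4 : 2 ^ (L * (k + 2)) ≤ n := by
    have b1 : 2 ^ (L * κ) ≤ T ^ k :=
      calc 2 ^ (L * κ) ≤ 2 ^ ((t + 1) * k) := Nat.pow_le_pow_right (by norm_num) a1.le
        _ = (2 ^ (t + 1)) ^ k := by rw [pow_mul]
        _ ≤ T ^ k := Nat.pow_le_pow_left a3 k
    have b2 : (2 ^ (L * (k + 2))) ^ κ ≤ n ^ κ :=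
      calc (2 ^ (L * (k + 2))) ^ κ = (2 ^ (L * κ)) ^ (k + 2) := by
            rw [← pow_mul, ← pow_mul]; exact congrArg _ (by ring)
        _ ≤ (T ^ k) ^ (k + 2) := Nat.pow_le_pow_left b1 _
        _ = T ^ (k * (k + 2)) := by rw [← pow_mul]
        _ ≤ n ^ κ := hn
    exact (Nat.pow_le_pow_iff_left (by omega)).1 b2
  obtain ⟨D, d1, d2, d3⟩ := core' n L w E hE a4
    (le_trans (Nat.mul_le_mul_right _ (Nat.le_add_right _ _)) hw)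
  refine ⟨D, ⟨d2, fun u v => ?_⟩, ?_⟩
  · obtain ⟨b, b1, b2⟩ := d3 u v
    exact ⟨b, run_mono _ _ _ b1 hL2, b2⟩
  have a5 : t + 1 ≤ Nat.log 2 T := Nat.le_log_of_pow_le (by norm_num) a3
  have a6 : t' ≤ t + 1 + κ := by
    have : t' * k ≤ (t + 1 + κ) * k := by nlinarith
    exact Nat.le_of_mul_le_mul_right this hk0
  have a7 : t' + 1 ≤ (κ + 3) * Nat.log 2 T := by nlinarith
  have a8 : T ^ k ≤ (C0 * (κ + 3)) ^ k * Nat.log 2 T ^ k * (2 ^ κ * (2 ^ L) ^ κ) :=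
    calc T ^ k ≤ (C0 * ((κ + 3) * Nat.log 2 T * 2 ^ t')) ^ k :=
          Nat.pow_le_pow_left (hL1.le.trans
            (Nat.mul_le_mul_left _ (Nat.mul_le_mul_right _ a7))) k
      _ = (C0 * (κ + 3)) ^ k * Nat.log 2 T ^ k * 2 ^ (t' * k) := by
          rw [pow_mul, ← mul_pow, ← mul_pow]; exact congrArg (· ^ k) (by ring)
      _ ≤ (C0 * (κ + 3)) ^ k * Nat.log 2 T ^ k * 2 ^ ((L + 1) * κ) :=
          Nat.mul_le_mul_left _ (Nat.pow_le_pow_right (by norm_num) a2)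
      _ = _ := by
          have e : (L + 1) * κ = κ + L * κ := by ring
          rw [← pow_mul, ← pow_add, e]
  have a9 : D.length ^ κ * (2 ^ L) ^ κ ≤ C0 ^ κ * n ^ (2 * κ) := by
    rw [← mul_pow, pow_mul n, ← mul_pow]
    exact Nat.pow_le_pow_left d1 κ
  calc D.length ^ κ * T ^ k
      ≤ D.length ^ κ * ((C0 * (κ + 3)) ^ k * Nat.log 2 T ^ k * (2 ^ κ * (2 ^ L) ^ κ)) :=
        Nat.mul_le_mul_left _ a8
    _ = D.length ^ κ * (2 ^ L) ^ κ * ((C0 * (κ + 3)) ^ k * Nat.log 2 T ^ k * 2 ^ κ) := by ring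
    _ ≤ C0 ^ κ * n ^ (2 * κ) * ((C0 * (κ + 3)) ^ k * Nat.log 2 T ^ k * 2 ^ κ) :=
        Nat.mul_le_mul_right _ a9
    _ = C0 ^ κ * (C0 * (κ + 3)) ^ k * 2 ^ κ * n ^ (2 * κ) * Nat.log 2 T ^ k := by ring
    _ ≤ _ := Nat.mul_le_mul_right _ (Nat.mul_le_mul_right _ (Nat.le_add_left _ _))

end Pool.Agent.Results.MP_a349b4_lc.Tradeoff
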